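import Pool.Agent.Q203.SP.EvP
import Pool.Agent.Q153.SU.CountT

set_option autoImplicit false

/-! Project SP (helper41), job P6 (helper203): the counting lemma on the curve `T₂ = T₁ ^ q`. -/

namespace Pool.Agent.Q203.SP

open Finset Polynomial
open Pool.Agent.Q41.SU (ev)
open Pool.Agent.Q41.SP
open Pool.Agent.Q153.SU (evh ev_eq evh_C evh_X hom_ext2 coeff_zero Ex strip natDegree_swap_le
  relP_C_monic prod_dvd_of cop_C cop_X ex_A evh_A shift_back natDegree_B natDegree_A swap_ne)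

universe u

variable {k : Type u} [Field k]

section
variable (l r : ℕ) [Fact l.Prime] [CharP k l]

theorem q_pos : 0 < l ^ r := pow_pos (Fact.out : l.Prime).pos _

/-- the shift of both variables -/
noncomputable def shf (t₀ : k) : k[X][X] →+* k[X][X] :=
  eval₂RingHom ((C : k[X] →+* k[X][X]).comp ((aeval (X + C t₀) : k[X] →ₐ[k] k[X]) : k[X] →+* k[X]))
    (X + C (C (t₀ ^ l ^ r)))

theorem shf_C (t₀ : k) (a : k[X]) : shf l r t₀ (C a) = C (aeval (X + C t₀) a) := by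
  unfold shf
  rw [coe_eval₂RingHom, eval₂_C]
  rfl

theorem shf_X (t₀ : k) : shf l r t₀ (X : k[X][X]) = X + C (C (t₀ ^ l ^ r)) := by
  unfold shf
  rw [coe_eval₂RingHom, eval₂_X]

theorem evh_shf (t₀ : k) (y : k[X]) :
    (evh X y).comp (shf l r t₀) = evh (C t₀ + X) (C (t₀ ^ l ^ r) + y) := by
  refine hom_ext2 (fun a => ?_) ?_ ?_
  · rw [RingHom.comp_apply, shf_C, evh_C, evh_C, aeval_C, aeval_C]
    simp
  · rw [RingHom.comp_apply, shf_C, evh_C, evh_C, aeval_X, map_add, aeval_X, aeval_X, aeval_C]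
    rw [add_comm]
    rfl
  · rw [RingHom.comp_apply, shf_X, map_add, evh_X, evh_X, evh_C, aeval_C, add_comm]
    rfl

theorem diag_shf (t₀ : k) (F : k[X][X]) :
    (shf l r t₀ F).eval (X ^ l ^ r) = (F.eval (X ^ l ^ r)).comp (X + C t₀) := by
  have h : (evalRingHom (X ^ l ^ r : k[X])).comp (shf l r t₀) =
      (compRingHom (X + C t₀)).comp (evalRingHom (X ^ l ^ r : k[X])) := by
    refine hom_ext2 (fun a => ?_) ?_ ?_
    · rw [RingHom.comp_apply, RingHom.comp_apply, shf_C, aeval_C]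
      simp
    · rw [RingHom.comp_apply, RingHom.comp_apply, shf_C, aeval_X]
      simp
    · rw [RingHom.comp_apply, RingHom.comp_apply, shf_X]
      simp [add_pow_char_pow]
  exact RingHom.congr_fun h F

end

/-- the order of the diagonal -/
theorem diag_dvd [Infinite k] (G : k[X][X]) (J q w m : ℕ)
    (h : {c : k | ¬ X ^ w ∣ evh X (C c * X ^ (J * q)) G}.Finite) (hm : ∀ n, w ≤ J * n → m ≤ n)
    (hJ : 1 ≤ J) : X ^ m ∣ G.eval (X ^ q) := by
  rw [eval_eq_sum_range]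
  refine Finset.dvd_sum fun j _ => ?_
  have h1 : X ^ (w - J * q * j) ∣ G.coeff j := by
    rw [X_pow_dvd_iff]
    intro i hi
    exact coeff_zero G (J * q) w h i j (by omega)
  have h2 : X ^ ((w - J * q * j) + q * j) ∣ G.coeff j * (X ^ q) ^ j := by
    rw [pow_add, ← pow_mul]
    exact mul_dvd_mul h1 dvd_rfl
  refine (pow_dvd_pow _ (hm _ ?_)).trans h2
  rw [mul_add, ← mul_assoc]
  have : w - J * q * j ≤ J * (w - J * q * j) := Nat.le_mul_of_pos_left _ hJ
  omega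

section
variable (l r : ℕ) [Fact l.Prime] [CharP k l]

/-- the order of the horizontal part -/
theorem ex_B (S₀ : Finset k) (h : k → ℕ) (Θ : ℕ) (hΘ : 1 ≤ Θ) (t₀ c' : k) (hc : c' ≠ 0)
    (ht : t₀ ∈ S₀) :
    Ex (h t₀ * Θ) (∏ t ∈ S₀, (C c' * (X : k[X]) ^ Θ + C (t₀ ^ l ^ r - t ^ l ^ r)) ^ h t) := by
  classical
  have h1 : Ex (∑ t ∈ S₀, if t₀ = t then h t * Θ else 0)
      (∏ t ∈ S₀, (C c' * (X : k[X]) ^ Θ + C (t₀ ^ l ^ r - t ^ l ^ r)) ^ h t) := by
    refine Ex.prod S₀ _ _ fun t _ => ?_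
    by_cases he : t₀ = t
    · rw [if_pos he, he, sub_self, C_0, add_zero]
      have h2 : Ex Θ (C c' * (X : k[X]) ^ Θ) :=
        ⟨C c', by rw [mul_comm], by rw [coeff_C_zero]; exact hc⟩
      exact h2.pow (h t)
    · rw [if_neg he]
      have h2 : Ex 0 (C c' * (X : k[X]) ^ Θ + C (t₀ ^ l ^ r - t ^ l ^ r)) := by
        refine Ex.of_coeff ?_
        rw [coeff_add, coeff_C_mul, coeff_X_pow, if_neg (by omega), mul_zero, coeff_C_zero,
          zero_add]
        exact sub_ne_zero_of_ne fun h' => he (pow_q_inj k l r h')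
      simpa using h2.pow (h t)
  rwa [Finset.sum_ite_eq, if_pos ht] at h1

end

/-- the order of the diagonal part -/
theorem ex_D (c₀ J q : ℕ) (hJ : 2 ≤ J) (hq : 0 < q) (c' : k) :
    Ex (c₀ * q) ((C c' * (X : k[X]) ^ (J * q) - X ^ q) ^ c₀) := by
  obtain ⟨j, rfl⟩ : ∃ j, J = j + 2 := ⟨J - 2, by omega⟩
  have h1 : Ex q (C c' * (X : k[X]) ^ ((j + 2) * q) - X ^ q) := by
    refine ⟨C c' * X ^ ((j + 1) * q) - 1, ?_, ?_⟩
    · rw [show (j + 2) * q = q + (j + 1) * q by ring, pow_add]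
      ring
    · rw [coeff_sub, coeff_C_mul, coeff_X_pow, if_neg, mul_zero, coeff_one_zero, zero_sub]
      · exact neg_ne_zero.mpr one_ne_zero
      · have : 0 < (j + 1) * q := Nat.mul_pos (Nat.succ_pos _) hq
        omega
  exact h1.pow c₀

section
variable (l r : ℕ) [Fact l.Prime] [CharP k l]

theorem evh_B (S₀ : Finset k) (h : k → ℕ) (t₀ : k) (x z : k[X]) :
    evh x (C (t₀ ^ l ^ r) + z) (∏ t ∈ S₀, (X - C (C (t ^ l ^ r))) ^ h t) =
      ∏ t ∈ S₀, (z + C (t₀ ^ l ^ r - t ^ l ^ r)) ^ h t := by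
  rw [map_prod]
  refine Finset.prod_congr rfl fun t _ => ?_
  rw [map_pow, map_sub, evh_X, evh_C, aeval_C, C_sub]
  congr 1
  change C (t₀ ^ l ^ r) + z - C (t ^ l ^ r) = _
  ring

theorem evh_D (c₀ : ℕ) (t₀ : k) (z : k[X]) :
    evh (C t₀ + X) (C (t₀ ^ l ^ r) + z) ((X - C (X ^ l ^ r)) ^ c₀) = (z - X ^ l ^ r) ^ c₀ := by
  rw [map_pow, map_sub, evh_X, evh_C, aeval_X_pow, add_pow_char_pow, C_pow]
  congr 1
  ring

end

theorem natDegree_B' (S₀ : Finset k) (h : k → ℕ) (f : k → k) :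
    (∏ t ∈ S₀, (X - C (C (f t)) : k[X][X]) ^ h t).natDegree = ∑ t ∈ S₀, h t := by
  rw [natDegree_prod_of_monic _ _ fun t _ => (monic_X_sub_C _).pow _]
  refine Finset.sum_congr rfl fun t _ => ?_
  rw [(monic_X_sub_C _).natDegree_pow, natDegree_X_sub_C, mul_one]

theorem natDegree_swap_D (c₀ q : ℕ) :
    (Bivariate.swap ((X - C (X ^ q) : k[X][X]) ^ c₀)).natDegree = c₀ * q := by
  rw [map_pow, map_sub, Bivariate.swap_Y, Bivariate.swap_C, Polynomial.map_pow, map_X,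
    natDegree_pow]
  have h1 : (C X - X ^ q : k[X][X]) = -(X ^ q - C X) := by ring
  rw [h1, natDegree_neg, natDegree_X_pow_sub_C]

theorem natDegree_diag_le (F : k[X][X]) (q : ℕ) :
    (F.eval (X ^ q)).natDegree ≤ (Bivariate.swap F).natDegree + q * F.natDegree := by
  rw [eval_eq_sum_range]
  refine natDegree_sum_le_of_forall_le _ _ fun j hj => ?_
  have h1 := (natDegree_swap_le (F := F)).mp le_rfl j
  have h2 := Finset.mem_range.mp hj
  refine natDegree_mul_le.trans ?_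
  rw [← pow_mul, natDegree_X_pow]
  have h3 : q * j ≤ q * F.natDegree := Nat.mul_le_mul_left _ (by omega)
  omega

/-- **(P6) The counting lemma on the curve `T₂ = T₁ ^ q`.** -/
theorem countP : S_countP.{u} := by
  intro k _ _ l r _ _ F hF D₁ D₂ hD₂ hD₁ S S₀ hS v h W J c hJ hv hh hc hW
  classical
  have hq : 0 < l ^ r := q_pos l r
  -- the power of the diagonal
  obtain ⟨c₀, hc₀, hc₁, hc₂⟩ : ∃ c₀, c₀ ≤ c ∧ (X - C (X ^ l ^ r) : k[X][X]) ^ c₀ ∣ F ∧
      ¬ (X - C (X ^ l ^ r) : k[X][X]) ^ (c₀ + 1) ∣ F := by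
    have hex : ∃ n, ¬ (X - C (X ^ l ^ r) : k[X][X]) ^ (n + 1) ∣ F := ⟨c, hc⟩
    refine ⟨Nat.find hex, Nat.find_min' hex hc, ?_, Nat.find_spec hex⟩
    rcases Nat.eq_zero_or_pos (Nat.find hex) with h0 | h0
    · rw [h0, pow_zero]
      exact one_dvd _
    · have h1 := Nat.find_min hex (m := Nat.find hex - 1) (by omega)
      rw [not_not, Nat.sub_add_cancel h0] at h1
      exact h1
  set A : k[X] := ∏ t ∈ S₀, (X - C t) ^ v t with hA
  set B : k[X][X] := ∏ t ∈ S₀, (X - C (C (t ^ l ^ r))) ^ h t with hB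
  set D : k[X][X] := (X - C (X ^ l ^ r)) ^ c₀ with hD
  have hAm : A.Monic := monic_prod_of_monic _ _ fun t _ => (monic_X_sub_C t).pow _
  have hBm : B.Monic := monic_prod_of_monic _ _ fun t _ => (monic_X_sub_C (C (t ^ l ^ r))).pow _
  have hDm : D.Monic := (monic_X_sub_C _).pow _
  have hAF : C A ∣ F := by
    have h1 : C A = ∏ t ∈ S₀, (C (X - C t) : k[X][X]) ^ v t := by
      rw [hA, map_prod]
      exact Finset.prod_congr rfl fun t _ => by rw [C_pow]
    rw [h1]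
    refine prod_dvd_of S₀ _ v F (fun i _ j _ hij => cop_C i j hij) fun i hi => ?_
    rw [← C_pow]
    exact hv i hi
  have hBF : B ∣ F := prod_dvd_of S₀ _ h F
    (fun i _ j _ hij => cop_X _ _ fun h' => hij (pow_q_inj k l r h')) hh
  have hBD : IsRelPrime B D := by
    have h1 : IsRelPrime (X - C (X ^ l ^ r) : k[X][X]) B := by
      rw [(irreducible_X_sub_C (X ^ l ^ r : k[X])).isRelPrime_iff_not_dvd, dvd_iff_isRoot]
      show ¬ B.eval (X ^ l ^ r) = 0
      rw [hB, eval_prod, Finset.prod_eq_zero_iff]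
      rintro ⟨t, _, h1⟩
      rw [eval_pow, eval_sub, eval_X, eval_C] at h1
      exact (monic_X_pow_sub_C (t ^ l ^ r) hq.ne').ne_zero (eq_zero_of_pow_eq_zero h1)
    exact (h1.pow_left).symm
  have hABD : C A * (B * D) ∣ F :=
    (relP_C_monic hAm.ne_zero (hBm.mul hDm)).mul_dvd hAF (hBD.mul_dvd hBF hc₁)
  obtain ⟨F₁, hF₁⟩ := hABD
  have hF₁0 : F₁ ≠ 0 := by
    rintro rfl
    rw [mul_zero] at hF₁
    exact hF hF₁
  have hG0 : F₁.eval (X ^ l ^ r) ≠ 0 := by
    intro h0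
    have h1 : (X - C (X ^ l ^ r) : k[X][X]) ∣ F₁ := dvd_iff_isRoot.mpr h0
    apply hc₂
    rw [hF₁, pow_succ, ← hD]
    refine Dvd.dvd.trans (mul_dvd_mul_left D h1) ?_
    exact ⟨C A * B, by ring⟩
  -- degrees
  have hdeg1 : F.natDegree = ∑ t ∈ S₀, h t + c₀ + F₁.natDegree := by
    rw [hF₁, natDegree_mul (mul_ne_zero (C_ne_zero.mpr hAm.ne_zero)
      (mul_ne_zero hBm.ne_zero hDm.ne_zero)) hF₁0,
      natDegree_mul (C_ne_zero.mpr hAm.ne_zero) (mul_ne_zero hBm.ne_zero hDm.ne_zero),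
      natDegree_mul hBm.ne_zero hDm.ne_zero, natDegree_C, zero_add, hB,
      natDegree_B' S₀ h (fun t => t ^ l ^ r), hD,
      (monic_X_sub_C _).natDegree_pow, natDegree_X_sub_C, mul_one]
  have hdeg2 : (Bivariate.swap F).natDegree = ∑ t ∈ S₀, v t +
      ((Bivariate.swap B).natDegree + c₀ * l ^ r) + (Bivariate.swap F₁).natDegree := by
    have hAs : Bivariate.swap (C A) ≠ 0 := swap_ne (C_ne_zero.mpr hAm.ne_zero)
    have hBs := swap_ne hBm.ne_zero
    have hDs := swap_ne hDm.ne_zero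
    rw [hF₁, map_mul, map_mul, map_mul, natDegree_mul (mul_ne_zero hAs (mul_ne_zero hBs hDs))
      (swap_ne hF₁0), natDegree_mul hAs (mul_ne_zero hBs hDs), natDegree_mul hBs hDs,
      Bivariate.swap_C, natDegree_map_eq_of_injective C_injective, hA, natDegree_A, hD,
      natDegree_swap_D]
  have hdeg3 : (Bivariate.swap F).natDegree ≤ D₁ := natDegree_swap_le.mpr hD₁
  -- the multiplicities
  set w : k → ℕ := fun t => W t - (v t + h t * (J * l ^ r) + c₀ * l ^ r) with hw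
  set m : k → ℕ := fun t => (w t + J - 1) / J with hm
  have hm1 : ∀ t, ∀ n, w t ≤ J * n → m t ≤ n := by
    intro t n hn
    have h1 : (w t + J - 1) / J < n + 1 := by
      rw [Nat.div_lt_iff_lt_mul (by omega), add_mul, one_mul, mul_comm n]
      omega
    exact Nat.lt_succ_iff.mp h1
  have hm2 : ∀ t, w t ≤ J * m t := by
    intro t
    have h1 := Nat.div_add_mod (w t + J - 1) J
    have h2 := Nat.mod_lt (w t + J - 1) (show 0 < J by omega)
    show w t ≤ J * ((w t + J - 1) / J)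
    omega
  have hΘ1 : 1 ≤ J * l ^ r := Nat.mul_pos (by omega) hq
  have hdvd : ∀ t₀ ∈ S, (X - C t₀) ^ m t₀ ∣ F₁.eval (X ^ l ^ r) := by
    intro t₀ ht₀
    refine shift_back _ t₀ _ ?_
    rw [← diag_shf]
    refine diag_dvd (shf l r t₀ F₁) J (l ^ r) (w t₀) (m t₀) ?_ (hm1 t₀) (by omega)
    refine ((hW t₀ ht₀).union (Set.finite_singleton (0 : k))).subset fun c' hc' => ?_
    by_cases h0 : c' = 0
    · exact Or.inr h0
    left
    intro hdv
    apply hc'
    have h1 : evh X (C c' * X ^ (J * l ^ r)) (shf l r t₀ F₁) =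
        evh (C t₀ + X) (C (t₀ ^ l ^ r) + C c' * X ^ (J * l ^ r)) F₁ := by
      rw [← evh_shf]
      rfl
    rw [h1]
    rw [ev_eq, hF₁, map_mul, map_mul, map_mul, hA, hB, hD, evh_A, evh_B, evh_D] at hdv
    refine strip ?_ hdv
    have h2 := (ex_A S₀ v t₀ (hS ht₀)).mul
      ((ex_B l r S₀ h (J * l ^ r) hΘ1 t₀ c' h0 (hS ht₀)).mul (ex_D c₀ J (l ^ r) hJ hq c'))
    rwa [← add_assoc] at h2
  have hsum : ∑ t ∈ S, m t ≤ (F₁.eval (X ^ l ^ r)).natDegree := by
    have h1 : ∏ t ∈ S, (X - C t) ^ m t ∣ F₁.eval (X ^ l ^ r) :=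
      prod_dvd_of S _ m _ (fun i _ j _ hij =>
        isCoprime_X_sub_C_of_isUnit_sub (sub_ne_zero_of_ne hij).isUnit) hdvd
    have h2 := natDegree_le_of_dvd h1 hG0
    rwa [natDegree_A] at h2
  have hfin := hsum.trans (natDegree_diag_le F₁ (l ^ r))
  -- conclusion
  have hz : ∀ t ∈ S, ((W t : ℤ) - v t - J * l ^ r * h t - l ^ r * c) ≤ J * (m t : ℤ) := by
    intro t _
    have h1 : ((w t : ℕ) : ℤ) ≤ J * (m t : ℤ) := by exact_mod_cast hm2 t
    have h2 : (W t : ℤ) - (v t + h t * (J * l ^ r) + c₀ * l ^ r) ≤ (w t : ℤ) := by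
      have h3 : W t ≤ w t + (v t + h t * (J * l ^ r) + c₀ * l ^ r) := by
        show W t ≤ W t - (v t + h t * (J * l ^ r) + c₀ * l ^ r) +
          (v t + h t * (J * l ^ r) + c₀ * l ^ r)
        omega
      have h4 : (W t : ℤ) ≤ (w t : ℤ) + (v t + h t * (J * l ^ r) + c₀ * l ^ r) := by
        exact_mod_cast h3
      linarith
    have h5 : (l : ℤ) ^ r * c₀ ≤ (l : ℤ) ^ r * c := by
      have : l ^ r * c₀ ≤ l ^ r * c := Nat.mul_le_mul_left _ hc₀
      exact_mod_cast this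
    have h6 : (J : ℤ) * l ^ r * h t = h t * (J * l ^ r) := mul_comm _ _
    have h7 : (c₀ : ℤ) * l ^ r = l ^ r * c₀ := mul_comm _ _
    linarith
  refine (Finset.sum_le_sum hz).trans ?_
  rw [← Finset.mul_sum]
  refine mul_le_mul_of_nonneg_left ?_ (by positivity)
  have e1 : ((∑ t ∈ S, m t : ℕ) : ℤ) = ∑ t ∈ S, (m t : ℤ) := by push_cast; rfl
  have e2 : ((∑ t ∈ S₀, v t : ℕ) : ℤ) = ∑ t ∈ S₀, (v t : ℤ) := by push_cast; rfl
  have e3 : ((∑ t ∈ S₀, h t : ℕ) : ℤ) = ∑ t ∈ S₀, (h t : ℤ) := by push_cast; rfl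
  rw [← e1, ← e2, ← e3]
  generalize (∑ t ∈ S, m t) = M₁ at *
  generalize (∑ t ∈ S₀, v t) = M₂ at *
  generalize (∑ t ∈ S₀, h t) = M₃ at *
  have hl : ((l : ℤ) ^ r) = ((l ^ r : ℕ) : ℤ) := by push_cast; rfl
  rw [hl]
  generalize l ^ r = Q at *
  have g1 : (M₁ : ℤ) ≤ (Bivariate.swap F₁).natDegree + Q * F₁.natDegree := by exact_mod_cast hfin
  have g2 : (Q : ℤ) * F.natDegree ≤ Q * D₂ := by
    have : Q * F.natDegree ≤ Q * D₂ := Nat.mul_le_mul_left _ hD₂
    exact_mod_cast this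
  have g3 : (F.natDegree : ℤ) = M₃ + c₀ + F₁.natDegree := by exact_mod_cast hdeg1
  have g4 : ((Bivariate.swap F).natDegree : ℤ) = M₂ + ((Bivariate.swap B).natDegree + c₀ * Q) +
    (Bivariate.swap F₁).natDegree := by exact_mod_cast hdeg2
  have g5 : ((Bivariate.swap F).natDegree : ℤ) ≤ D₁ := by exact_mod_cast hdeg3
  have g6 : (0 : ℤ) ≤ (Bivariate.swap B).natDegree := by positivity
  have g7 : (0 : ℤ) ≤ c₀ * Q := by positivity
  rw [g3] at g2
  nlinarith [g1, g2, g4, g5, g6, g7]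

end Pool.Agent.Q203.SP
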