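import Pool.Agent.Q41.SP.Stm1

set_option autoImplicit false

/-! Project SP (helper41), job P5 (helper203): vertical and horizontal lines. -/

namespace Pool.Agent.Q203.SP

open Finset Polynomial
open Pool.Agent.Q41.SU (ev)
open Pool.Agent.Q41.SP

universe u

theorem pow_q_inj (k : Type*) [Field k] (l r : ℕ) [Fact l.Prime] [CharP k l] :
    Function.Injective fun c : k => c ^ l ^ r := by
  have : ExpChar k l := ExpChar.prime Fact.out
  have h := iterateFrobenius_inj k l r
  intro a b hab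
  apply h
  simpa [iterateFrobenius_def] using hab

theorem ev_mul {k : Type*} [CommRing k] {A : Type*} [CommRing A] [Algebra k A]
    (F G : k[X][X]) (x y : A) : ev (F * G) x y = ev F x y * ev G x y := by
  unfold ev
  exact eval₂_mul _ _

theorem ev_dvd_root {k : Type*} [Field k] (F : k[X][X]) (x0 y0 : k) (y : k[X])
    (hy : y.eval 0 = y0)
    (h : X ∣ ev F (C x0 + X) y) : (F.map (evalRingHom x0)).eval y0 = 0 := by
  rw [X_dvd_iff, coeff_zero_eq_eval_zero] at h
  unfold ev at h
  have h1 : eval 0 (eval₂ ((aeval (C x0 + X : k[X]) : k[X] →ₐ[k] k[X]) : k[X] →+* k[X])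
      y F) = eval₂ ((evalRingHom (0 : k)).comp
        ((aeval (C x0 + X : k[X]) : k[X] →ₐ[k] k[X]) : k[X] →+* k[X])) (eval 0 y) F := by
    have := hom_eval₂ F ((aeval (C x0 + X : k[X]) : k[X] →ₐ[k] k[X]) : k[X] →+* k[X])
      (evalRingHom (0 : k)) y
    simpa using this
  rw [h1] at h
  have h2 : (evalRingHom (0 : k)).comp
        ((aeval (C x0 + X : k[X]) : k[X] →ₐ[k] k[X]) : k[X] →+* k[X]) = evalRingHom x0 := by
    apply Polynomial.ringHom_ext
    · intro c
      simp
    · simp
  rw [h2, hy] at h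
  rw [eval_map]
  simpa using h

theorem ev_1 {k : Type u} [Field k] (l r : ℕ) [Fact l.Prime] [CharP k l] (t₀ : k) (v : ℕ) :
    ∀ F : k[X][X], {c' : k | X ^ v ∣ ev F (C t₀ + X) ((C c' + X) ^ l ^ r)}.Infinite →
      C ((X - C t₀) ^ v) ∣ F := by
  induction v with
  | zero => intro F _; simp
  | succ v ih =>
    intro F hF
    have h0 : F.map (evalRingHom t₀) = 0 := by
      apply eq_zero_of_infinite_isRoot
      refine (hF.image (f := fun c : k => c ^ l ^ r) (pow_q_inj k l r).injOn).mono ?_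
      rintro _ ⟨c', hc', rfl⟩
      have : X ∣ ev F (C t₀ + X) ((C c' + X) ^ l ^ r) :=
        (dvd_pow_self X (Nat.succ_ne_zero v)).trans hc'
      exact ev_dvd_root F t₀ _ _ (by simp) this
    have h1 : C (X - C t₀) ∣ F := by
      rw [C_dvd_iff_dvd_coeff]
      intro i
      rw [dvd_iff_isRoot, IsRoot]
      have := congrArg (fun G => coeff G i) h0
      simpa [coeff_map] using this
    obtain ⟨F', rfl⟩ := h1
    have h2 : ∀ y : k[X], ev (C (X - C t₀) * F') (C t₀ + X) y =
        X * ev F' (C t₀ + X) y := by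
      intro y
      rw [ev_mul]
      congr 1
      unfold ev
      rw [eval₂_C]
      simp
    have h3 : C ((X - C t₀) ^ v) ∣ F' := by
      apply ih
      refine hF.mono fun c' hc' => ?_
      have hc2 : X ^ (v + 1) ∣ ev (C (X - C t₀) * F') (C t₀ + X) ((C c' + X) ^ l ^ r) := hc'
      rw [h2, pow_succ'] at hc2
      exact (mul_dvd_mul_iff_left X_ne_zero).mp hc2
    rw [pow_succ', C_mul]
    exact mul_dvd_mul_left _ h3

theorem ev_2 {k : Type u} [Field k] (l r : ℕ) [Fact l.Prime] [CharP k l] (t₀ : k) (v : ℕ) :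
    ∀ (w : ℕ) (F : k[X][X]),
    {c' : k | X ^ w ∣ ev F (C c' + X) ((C t₀ + X) ^ l ^ r)}.Infinite → l ^ r * v < w + l ^ r →
      (X - C (C (t₀ ^ l ^ r))) ^ v ∣ F := by
  have hq : 0 < l ^ r := pow_pos (Fact.out : l.Prime).pos _
  induction v with
  | zero => intro w F _ _; simp
  | succ v ih =>
    intro w F hF hw
    have hw1 : l ^ r * v < w := by rw [Nat.mul_succ] at hw; omega
    have hw0 : w ≠ 0 := by omega
    have h0 : F.eval (C (t₀ ^ l ^ r)) = 0 := by
      apply eq_zero_of_infinite_isRoot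
      refine hF.mono fun c' hc' => ?_
      have h1 : X ∣ ev F (C c' + X) ((C t₀ + X) ^ l ^ r) := (dvd_pow_self X hw0).trans hc'
      have h2 := ev_dvd_root F c' (t₀ ^ l ^ r) _ (by simp) h1
      show eval c' (F.eval (C (t₀ ^ l ^ r))) = 0
      rw [eval_map] at h2
      have h3 := hom_eval₂ F (RingHom.id _) (evalRingHom c') (C (t₀ ^ l ^ r))
      simp only [RingHom.comp_id, coe_evalRingHom, eval_C] at h3
      rw [eval₂_id] at h3
      rw [h3]
      exact h2
    have h1 : (X - C (C (t₀ ^ l ^ r))) ∣ F := dvd_iff_isRoot.mpr h0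
    obtain ⟨F', rfl⟩ := h1
    have h2 : ∀ c' : k, ev ((X - C (C (t₀ ^ l ^ r))) * F') (C c' + X) ((C t₀ + X) ^ l ^ r) =
        X ^ l ^ r * ev F' (C c' + X) ((C t₀ + X) ^ l ^ r) := by
      intro c'
      rw [ev_mul]
      congr 1
      unfold ev
      rw [eval₂_sub, eval₂_X, eval₂_C, add_pow_char_pow]
      simp
    have h3 : (X - C (C (t₀ ^ l ^ r))) ^ v ∣ F' := by
      apply ih (w - l ^ r)
      · refine hF.mono fun c' hc' => ?_
        have hc2 : X ^ w ∣ ev ((X - C (C (t₀ ^ l ^ r))) * F') (C c' + X)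
            ((C t₀ + X) ^ l ^ r) := hc'
        rw [h2] at hc2
        rcases Nat.lt_or_ge w (l ^ r) with h4 | h4
        · show (X : k[X]) ^ (w - l ^ r) ∣ _
          rw [Nat.sub_eq_zero_of_le h4.le, pow_zero]
          exact one_dvd _
        · have h5 : (X : k[X]) ^ w = X ^ l ^ r * X ^ (w - l ^ r) := by
            rw [← pow_add, Nat.add_sub_cancel' h4]
          rw [h5] at hc2
          exact (mul_dvd_mul_iff_left (pow_ne_zero _ X_ne_zero)).mp hc2
      · rcases Nat.eq_zero_or_pos v with h4 | h4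
        · subst h4; omega
        · have : l ^ r ≤ l ^ r * v := Nat.le_mul_of_pos_right _ h4
          omega
    rw [pow_succ']
    exact mul_dvd_mul_left _ h3

theorem evP : S_evP.{u} :=
  fun _ _ _ l r _ _ F t₀ v w => ⟨ev_1 l r t₀ v F, ev_2 l r t₀ v w F⟩

end Pool.Agent.Q203.SP
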